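import Pool.Agent.Helper38.SD.Goals
import Pool.Agent.Helper65.TH.TOR
import Pool.Agent.Helper57.TH.DRAM
import Mathlib.RingTheory.ZMod.UnitsCyclic

/-!
# Project SD (MP_fc6b1e_nt), packet A_CYC: a cyclotomic tower satisfies `Cyc`
-/

set_option autoImplicit false

namespace Pool.Agent.Helper80.SD

open NumberField Module
open Pool.Agent.Helper16.SD Pool.Agent.Helper38.SD
open Pool.Agent.Helper38.FD (Chr CutsOut)
open Pool.Agent.Helper38.TH (IsTower)
open Pool.Agent.Helper57.TH (tower_pow tower_ord)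

section

variable (p : ℕ) [Fact p.Prime] (K : Type) [Field K] [NumberField K]

/-- the cyclotomic character as a homomorphism -/
noncomputable def cyh : (AlgebraicClosure K ≃ₐ[K] AlgebraicClosure K) →* ℤ_[p]ˣ :=
  Pool.Agent.Helper65.TH.cyc p K

omit [NumberField K] in
theorem cyh_apply (g : AlgebraicClosure K ≃ₐ[K] AlgebraicClosure K) :
    cyh p K g = cyc p g := rfl

/-- the cyclotomic character modulo `p^k` -/
noncomputable def rr (k : ℕ) :
    (AlgebraicClosure K ≃ₐ[K] AlgebraicClosure K) →* (ZMod (p ^ k))ˣ :=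
  (Units.map ((PadicInt.toZModPow (p := p) k : ℤ_[p] →+* ZMod (p ^ k)) :
    ℤ_[p] →* ZMod (p ^ k))).comp (cyh p K)

omit [NumberField K] in
theorem rr_val (k : ℕ) (g : AlgebraicClosure K ≃ₐ[K] AlgebraicClosure K) :
    ((rr p K k g : (ZMod (p ^ k))ˣ) : ZMod (p ^ k)) =
      PadicInt.toZModPow k ((cyc p g : ℤ_[p]ˣ) : ℤ_[p]) := rfl

theorem dvd_iff (k : ℕ) (x y : ℤ_[p]) :
    (p : ℤ_[p]) ^ k ∣ x - y ↔ PadicInt.toZModPow k x = PadicInt.toZModPow k y := by
  rw [← Ideal.mem_span_singleton, ← PadicInt.ker_toZModPow, RingHom.mem_ker, map_sub, sub_eq_zero]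

omit [NumberField K] in
theorem rr_ker (k : ℕ) (g : AlgebraicClosure K ≃ₐ[K] AlgebraicClosure K) :
    rr p K k g = 1 ↔ (p : ℤ_[p]) ^ k ∣ ((cyc p g : ℤ_[p]ˣ) : ℤ_[p]) - 1 := by
  rw [dvd_iff, Units.ext_iff, rr_val, map_one, Units.val_one]

theorem rr_mono {k l : ℕ} (h : k ≤ l) (g : AlgebraicClosure K ≃ₐ[K] AlgebraicClosure K)
    (h1 : rr p K l g = 1) : rr p K k g = 1 := by
  rw [rr_ker] at h1 ⊢
  exact (pow_dvd_pow _ h).trans h1

theorem rr_surj (h2 : A_SURJ) (hsp : SplitP p K) (k : ℕ) (y : (ZMod (p ^ k))ˣ) :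
    ∃ g, rr p K k g = y := by
  have hp : p.Prime := Fact.out
  have : NeZero (p ^ k) := ⟨(pow_pos hp.pos k).ne'⟩
  rcases Nat.eq_zero_or_pos k with rfl | hk
  · refine ⟨1, ?_⟩
    have : Subsingleton (ZMod (p ^ 0)) := by
      rw [pow_zero]
      infer_instance
    exact Subsingleton.elim _ _
  have hcop : ((y : ZMod (p ^ k)).val).Coprime p :=
    (Nat.coprime_pow_right_iff hk _ _).1 (ZMod.val_coe_unit_coprime y)
  obtain ⟨g, hg⟩ := h2 p K hsp k _ hcop
  refine ⟨g, ?_⟩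
  rw [dvd_iff, map_natCast, ZMod.natCast_zmod_val] at hg
  rw [Units.ext_iff, rr_val, hg]

end

/-- the kernel of a finite level of the cyclotomic tower -/
theorem exists_m {p : ℕ} [Fact p.Prime] {K : Type} [Field K] [NumberField K]
    {η : ℕ → Chr K (AlgebraicClosure K) ℂ_[p]} (hη : IsCyclo η) (n : ℕ) :
    ∃ m, n + 1 ≤ m ∧ ∀ g, rr p K m g = 1 → η n g = 1 := by
  obtain ⟨H, hH, hcut⟩ := hη.tower.fin n
  let S : Set (AlgebraicClosure K) := {ζ | ∃ m, ζ ^ p ^ m = 1}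
  let M : IntermediateField K (AlgebraicClosure K) := IntermediateField.adjoin K S
  have hgal : IsGalois K (AlgebraicClosure K) := inferInstance
  have hHM : H ≤ M := by
    intro x hx
    rw [← InfiniteGalois.fixedField_fixingSubgroup M]
    intro g
    have h1 : η n g.1 = 1 := by
      refine hη.cyc n g.1 fun m ζ hζ => ?_
      exact g.2 ⟨ζ, IntermediateField.subset_adjoin K S ⟨m, hζ⟩⟩
    exact (hcut g.1).1 h1 x hx
  have hkey : ∀ x ∈ M, ∃ m, ∀ g : AlgebraicClosure K ≃ₐ[K] AlgebraicClosure K,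
      (∀ ζ : AlgebraicClosure K, ζ ^ p ^ m = 1 → g ζ = ζ) → g x = x := by
    have hmono : ∀ (m m' : ℕ), m ≤ m' → ∀ g : AlgebraicClosure K ≃ₐ[K] AlgebraicClosure K,
        (∀ ζ : AlgebraicClosure K, ζ ^ p ^ m' = 1 → g ζ = ζ) →
        (∀ ζ : AlgebraicClosure K, ζ ^ p ^ m = 1 → g ζ = ζ) := by
      intro m m' hmm g hg ζ hζ
      apply hg
      obtain ⟨d, rfl⟩ := Nat.exists_eq_add_of_le hmm
      rw [pow_add, pow_mul, hζ, one_pow]
    intro x hx
    induction hx using IntermediateField.adjoin_induction with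
    | mem x hx =>
      obtain ⟨m, hm⟩ := hx
      exact ⟨m, fun g hg => hg x hm⟩
    | algebraMap x => exact ⟨0, fun g _ => g.commutes x⟩
    | add x y _ _ hx hy =>
      obtain ⟨m, hm⟩ := hx
      obtain ⟨m', hm'⟩ := hy
      refine ⟨max m m', fun g hg => ?_⟩
      rw [map_add, hm g (hmono _ _ (le_max_left _ _) g hg),
        hm' g (hmono _ _ (le_max_right _ _) g hg)]
    | inv x _ hx =>
      obtain ⟨m, hm⟩ := hx
      refine ⟨m, fun g hg => ?_⟩
      rw [map_inv₀, hm g hg]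
    | mul x y _ _ hx hy =>
      obtain ⟨m, hm⟩ := hx
      obtain ⟨m', hm'⟩ := hy
      refine ⟨max m m', fun g hg => ?_⟩
      rw [map_mul, hm g (hmono _ _ (le_max_left _ _) g hg),
        hm' g (hmono _ _ (le_max_right _ _) g hg)]
  let b := Module.finBasis K H
  choose f hf using fun i => hkey (b i : AlgebraicClosure K) (hHM (b i).2)
  let m := (n + 1) + ∑ i, f i
  refine ⟨m, Nat.le_add_right _ _, fun g hg => ?_⟩
  rw [hcut g]
  have hfix : ∀ k ≤ m, ∀ ζ : AlgebraicClosure K, ζ ^ p ^ k = 1 → g ζ = ζ := by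
    intro k hk ζ hζ
    have h1 := rr_mono p K hk g hg
    have h2 : g ζ = ζ ^ ((cyc p g).val.toZModPow k).val :=
      cyclotomicCharacter.spec p (g : AlgebraicClosure K ≃+* AlgebraicClosure K) ζ hζ
    rw [← rr_val, h1, Units.val_one] at h2
    rcases Nat.eq_zero_or_pos k with rfl | hk0
    · rw [pow_zero, pow_one] at hζ
      rw [hζ, map_one]
    · have : Fact (1 < p ^ k) :=
        ⟨Nat.one_lt_pow hk0.ne' (Fact.out : p.Prime).one_lt⟩
      rw [ZMod.val_one, pow_one] at h2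
      exact h2
  have hb : ∀ i, g (b i : AlgebraicClosure K) = b i := by
    intro i
    refine hf i g (hfix _ ?_)
    exact (Finset.single_le_sum (f := f) (fun _ _ => Nat.zero_le _) (Finset.mem_univ i)).trans
      (Nat.le_add_left _ _)
  intro x hx
  have h3 := b.sum_repr ⟨x, hx⟩
  have h4 : x = ∑ i, (b.repr ⟨x, hx⟩ i) • (b i : AlgebraicClosure K) := by
    have := congrArg (algebraMap H (AlgebraicClosure K)) h3
    rw [map_sum] at this
    exact this.symm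
  rw [h4, map_sum]
  refine Finset.sum_congr rfl fun i _ => ?_
  rw [Algebra.smul_def, map_mul, g.commutes, hb i]

/-- `p^(k)` divides `u - 1` iff it divides `u^(p-1) - 1` -/
theorem dvd_pow_iff (p : ℕ) [Fact p.Prime] (k : ℕ) (u : ℤ_[p]) (h : (p : ℤ_[p]) ∣ u - 1) :
    (p : ℤ_[p]) ^ k ∣ u - 1 ↔ (p : ℤ_[p]) ^ k ∣ u ^ (p - 1) - 1 := by
  have hp : p.Prime := Fact.out
  rw [← mul_geom_sum]
  refine ⟨fun h1 => h1.mul_right _, fun h1 => ?_⟩
  refine PadicInt.prime_p.pow_dvd_of_dvd_mul_right k (fun h2 => ?_) h1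
  have h3 : (p : ℤ_[p]) ∣ (∑ i ∈ Finset.range (p - 1), u ^ i) - ((p - 1 : ℕ) : ℤ_[p]) := by
    have h4 : (∑ i ∈ Finset.range (p - 1), u ^ i) - ((p - 1 : ℕ) : ℤ_[p]) =
        ∑ i ∈ Finset.range (p - 1), (u ^ i - 1) := by
      rw [Finset.sum_sub_distrib, Finset.sum_const, Finset.card_range, nsmul_eq_mul, mul_one]
    rw [h4]
    refine Finset.dvd_sum fun i _ => h.trans ?_
    exact sub_one_dvd_pow_sub_one u i
  have h5 : (p : ℤ_[p]) ∣ ((p - 1 : ℕ) : ℤ_[p]) := (dvd_sub_right h2).1 h3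
  have h6 : (p : ℤ_[p]) ∣ 1 := by
    have h7 : (1 : ℤ_[p]) = (p : ℤ_[p]) - ((p - 1 : ℕ) : ℤ_[p]) := by
      rw [Nat.cast_sub hp.one_lt.le]
      simp
    rw [h7]
    exact dvd_sub (dvd_refl _) h5
  exact PadicInt.prime_p.not_isUnit (isUnit_of_dvd_one h6)

/-- PACKET A_CYC -/
theorem a_cyc (h1 : A_TEI) (h2 : A_SURJ) : A_CYC := by
  intro p _ hp2 K _ _ hsp η hη
  have hp : p.Prime := Fact.out
  obtain ⟨o, w, how, ho, hw⟩ := h1 p
  refine ⟨o.comp (cyh p K), w.comp (cyh p K), hη.tower, fun g => how _, fun g => ho _,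
    fun g => hw _, ?_⟩
  intro n g
  obtain ⟨m, hnm, hm⟩ := exists_m hη n
  have hcyc : IsCyclic (ZMod (p ^ m))ˣ := ZMod.isCyclic_units_of_prime_pow p hp hp2 m
  have : NeZero (p ^ m) := ⟨(pow_pos hp.pos m).ne'⟩
  have : NeZero (p ^ (n + 1)) := ⟨(pow_pos hp.pos _).ne'⟩
  obtain ⟨γ, hγ⟩ := IsCyclic.exists_monoid_generator (α := (ZMod (p ^ m))ˣ)
  obtain ⟨g₀, hg₀⟩ := rr_surj p K h2 hsp m γ
  -- powers of `g₀`
  have hpow : ∀ x, ∃ i : ℕ, η n x = (η n g₀) ^ i ∧ rr p K (n + 1) x = (rr p K (n + 1) g₀) ^ i := by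
    intro x
    obtain ⟨i, hi⟩ := hγ (rr p K m x)
    have h3 : rr p K m (x * (g₀ ^ i)⁻¹) = 1 := by
      rw [map_mul, map_inv, map_pow, hg₀]
      change γ ^ i = _ at hi
      rw [hi, mul_inv_cancel]
    refine ⟨i, ?_, ?_⟩
    · have h4 := hm _ h3
      rw [map_mul, map_inv, map_pow, mul_inv_eq_one] at h4
      exact h4
    · have h4 := rr_mono p K hnm _ h3
      rw [map_mul, map_inv, map_pow, mul_inv_eq_one] at h4
      exact h4
  have hord : orderOf (η n g₀) = p ^ n := by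
    rcases Nat.eq_zero_or_pos n with rfl | hn
    · rw [pow_zero, orderOf_eq_one_iff, hη.tower.zero]
      rfl
    · obtain ⟨k, rfl⟩ : ∃ k, n = 1 + k := ⟨n - 1, by omega⟩
      have h4 : ¬ (η (1 + k) g₀) ^ p ^ k = 1 := by
        intro h5
        apply hη.tower.one_ne
        refine MonoidHom.ext fun x => ?_
        obtain ⟨i, hi, _⟩ := hpow x
        rw [← tower_pow hη.tower 1 k x, hi, ← pow_mul, mul_comm, pow_mul, h5, one_pow]
        rfl
      have h5 : (η (1 + k) g₀) ^ p ^ (k + 1) = 1 := by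
        rw [add_comm k 1]
        exact tower_ord hη.tower (1 + k) g₀
      rw [orderOf_eq_prime_pow h4 h5, add_comm k 1]
  have hord' : orderOf (rr p K (n + 1) g₀) = p ^ n * (p - 1) := by
    rw [orderOf_eq_card_of_forall_mem_powers, Nat.card_eq_fintype_card,
      ZMod.card_units_eq_totient, Nat.totient_prime_pow_succ hp]
    intro y
    obtain ⟨x, hx⟩ := rr_surj p K h2 hsp (n + 1) y
    obtain ⟨i, _, hi⟩ := hpow x
    exact ⟨i, by rw [← hx, hi]⟩
  obtain ⟨i, hi1, hi2⟩ := hpow g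
  have h3 : η n g = 1 ↔ p ^ n ∣ i := by
    rw [hi1, ← orderOf_dvd_iff_pow_eq_one, hord]
  have h4 : (rr p K (n + 1) g) ^ (p - 1) = 1 ↔ p ^ n ∣ i := by
    rw [hi2, ← pow_mul, ← orderOf_dvd_iff_pow_eq_one, hord']
    exact Nat.mul_dvd_mul_iff_right (by have := hp.two_le; omega)
  rw [h3, ← h4]
  change _ ↔ (p : ℤ_[p]) ^ (n + 1) ∣ ((w (cyh p K g) : ℤ_[p]ˣ) : ℤ_[p]) - 1
  rw [dvd_pow_iff p (n + 1) _ (hw _)]
  have h5 : ((w (cyh p K g) : ℤ_[p]ˣ) : ℤ_[p]) ^ (p - 1) =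
      ((cyc p (g ^ (p - 1)) : ℤ_[p]ˣ) : ℤ_[p]) := by
    rw [← cyh_apply, map_pow, ← Units.val_pow_eq_pow_val]
    congr 1
    conv_rhs => rw [how (cyh p K g), mul_pow, ho, one_mul]
  rw [h5, ← rr_ker, map_pow]

end Pool.Agent.Helper80.SD
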