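import Pool.Agent.Helper38.SD.Goals
import Pool.Agent.Helper32.TH.EIMG

/-!
# Project SD (MP_fc6b1e_nt), packet A_SURJ: the cyclotomic character is surjective modulo `p^m`
-/

set_option autoImplicit false

namespace Pool.Agent.Helper80.SD

open NumberField Module Polynomial
open Pool.Agent.Helper16.SD Pool.Agent.Helper38.SD

/-- `cyclotomic (p^(n+1))` is irreducible over `ℚ_p` -/
theorem irr_cyc (p : ℕ) [Fact p.Prime] (n : ℕ) :
    Irreducible (cyclotomic (p ^ (n + 1)) ℚ_[p]) := by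
  have h := Pool.Agent.Helper32.TH.EIMG.irr p n
  have h1 : ((cyclotomic (p ^ (n + 1)) ℤ_[p]).comp (X + 1)).map (algebraMap ℤ_[p] ℚ_[p]) =
      taylorEquiv (1 : ℚ_[p]) (cyclotomic (p ^ (n + 1)) ℚ_[p]) := by
    rw [Polynomial.map_comp, map_cyclotomic]
    change _ = taylor 1 _
    rw [taylor_apply]
    simp
  rw [h1] at h
  exact (MulEquiv.irreducible_iff (taylorEquiv (1 : ℚ_[p]))).1 h

/-- an embedding in `ℚ_p` -/
theorem exists_qp (p : ℕ) [Fact p.Prime] (K : Type) [Field K] [NumberField K]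
    (hsp : SplitP p K) : Nonempty (K →+* ℚ_[p]) := by
  have hal : Algebra.IsAlgebraic ℚ K := inferInstance
  let t : K →+* ℂ_[p] := (IsAlgClosed.lift : K →ₐ[ℚ] ℂ_[p]).toRingHom
  choose f hf using hsp t
  have hinj : Function.Injective (algebraMap ℚ_[p] ℂ_[p]) := RingHom.injective _
  refine ⟨⟨⟨⟨f, ?_⟩, ?_⟩, ?_, ?_⟩⟩
  · apply hinj; rw [← hf, map_one, map_one]
  · intro x y; apply hinj; rw [← hf, map_mul, map_mul, hf, hf]
  · apply hinj; change algebraMap ℚ_[p] ℂ_[p] (f 0) = _; rw [← hf, map_zero, map_zero]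
  · intro x y; apply hinj
    change algebraMap ℚ_[p] ℂ_[p] (f (x + y)) = algebraMap ℚ_[p] ℂ_[p] (f x + f y)
    rw [← hf, map_add, map_add, hf, hf]

/-- PACKET A_SURJ -/
theorem a_surj : A_SURJ := by
  intro p _ K _ _ hsp m a ha
  have hp : p.Prime := Fact.out
  rcases Nat.eq_zero_or_pos m with rfl | hm
  · exact ⟨1, by rw [pow_zero]; exact one_dvd _⟩
  obtain ⟨n, rfl⟩ : ∃ n, m = n + 1 := ⟨m - 1, by omega⟩
  obtain ⟨i⟩ := exists_qp p K hsp
  have hirr : Irreducible (cyclotomic (p ^ (n + 1)) K) := by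
    refine (cyclotomic.monic _ K).irreducible_of_irreducible_map i _ ?_
    rw [map_cyclotomic]
    exact irr_cyc p n
  have hpos : 0 < p ^ (n + 1) := pow_pos hp.pos _
  obtain ⟨ζ, hζ⟩ := HasEnoughRootsOfUnity.exists_primitiveRoot (AlgebraicClosure K) (p ^ (n + 1))
  have hζ1 : ζ ^ p ^ (n + 1) = 1 := hζ.pow_eq_one
  have hcop : a.Coprime (p ^ (n + 1)) := ha.pow_right _
  have hζa : IsPrimitiveRoot (ζ ^ a) (p ^ (n + 1)) := hζ.pow_of_coprime a hcop
  have hmin : ∀ z : AlgebraicClosure K, IsPrimitiveRoot z (p ^ (n + 1)) →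
      minpoly K z = cyclotomic (p ^ (n + 1)) K := by
    intro z hz
    refine (minpoly.eq_of_irreducible_of_monic hirr ?_ (cyclotomic.monic _ K)).symm
    rw [aeval_def, ← eval_map, map_cyclotomic]
    exact hz.isRoot_cyclotomic hpos
  have hconj : IsConjRoot K (ζ ^ a) ζ := by
    rw [isConjRoot_def, hmin _ hζa, hmin _ hζ]
  obtain ⟨g, hg⟩ := isConjRoot_iff_exists_algEquiv.1 hconj
  refine ⟨g, ?_⟩
  have h4 : g ζ = ζ ^ ((cyc p g).val.toZModPow (n + 1)).val :=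
    cyclotomicCharacter.spec p (g : AlgebraicClosure K ≃+* AlgebraicClosure K) ζ hζ1
  rw [hg] at h4
  have : NeZero (p ^ (n + 1)) := ⟨hpos.ne'⟩
  have h5 : a % p ^ (n + 1) = ((cyc p g).val.toZModPow (n + 1)).val := by
    refine hζ.pow_inj (Nat.mod_lt _ hpos) (ZMod.val_lt _) ?_
    rw [← h4]
    conv_lhs => rw [hζ.eq_orderOf]
    exact pow_mod_orderOf ζ a
  have h6 : ((a : ℕ) : ZMod (p ^ (n + 1))) = (cyc p g).val.toZModPow (n + 1) := by
    rw [← ZMod.natCast_mod, h5]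
    exact ZMod.natCast_zmod_val _
  have h7 : ((cyc p g : ℤ_[p]ˣ) : ℤ_[p]) - a ∈ RingHom.ker (PadicInt.toZModPow (p := p) (n + 1)) := by
    rw [RingHom.mem_ker, map_sub, map_natCast, h6, sub_self]
  rw [PadicInt.ker_toZModPow] at h7
  exact Ideal.mem_span_singleton.1 h7

end Pool.Agent.Helper80.SD
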