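import Pool.Agent.Helper38.SD.Goals
import Pool.Agent.Helper57.TH.DRAM
import Pool.Agent.Helper13.RS.P1

/-!
# Project SD (MP_fc6b1e_nt), packet M_FUN: the functionals on the `χ`-part
-/

set_option autoImplicit false

namespace Pool.Agent.Helper80.SD

open NumberField Module TensorProduct
open Pool.Agent.Helper51.SigLeo Pool.Agent.Helper51.RP
open Pool.Agent.Helper16.SD Pool.Agent.Helper38.SD
open Pool.Agent.Helper38.FD (Chr)
open Pool.Agent.Helper17.TH (ug)
open Pool.Agent.Helper13.RS (bc extHom_bc bc_extEnd el el_inj)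
open Pool.Agent.Helper57.TH (exists_gal)

section

variable {p : ℕ} [Fact p.Prime] {K : Type} [Field K]

/-- extension of an embedding of `K` to `Ω` -/
theorem exists_ext (σ : K →+* ℂ_[p]) :
    ∃ τ : AlgebraicClosure K →+* ℂ_[p], τ.comp (algebraMap K (AlgebraicClosure K)) = σ := by
  let _ : Algebra K ℂ_[p] := σ.toAlgebra
  refine ⟨(IsAlgClosed.lift : AlgebraicClosure K →ₐ[K] ℂ_[p]).toRingHom, ?_⟩
  ext x
  exact (IsAlgClosed.lift : AlgebraicClosure K →ₐ[K] ℂ_[p]).commutes x

/-- extension of an embedding of `F` to `Ω` -/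
theorem exists_extF (F : IntermediateField K (AlgebraicClosure K)) (τ : F →+* ℂ_[p]) :
    ∃ τ' : AlgebraicClosure K →+* ℂ_[p], τ'.comp (algebraMap F (AlgebraicClosure K)) = τ := by
  let _ : Algebra F ℂ_[p] := τ.toAlgebra
  have _ : Algebra.IsAlgebraic F (AlgebraicClosure K) := Algebra.IsAlgebraic.tower_top (K := K) F
  refine ⟨(IsAlgClosed.lift : AlgebraicClosure K →ₐ[F] ℂ_[p]).toRingHom, ?_⟩
  ext x
  exact (IsAlgClosed.lift : AlgebraicClosure K →ₐ[F] ℂ_[p]).commutes x

/-- embeddings of `F` above `σ` are conjugate to the chosen one -/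
theorem exists_conj (F : IntermediateField K (AlgebraicClosure K)) [Normal K F]
    (t : AlgebraicClosure K →+* ℂ_[p]) (τ : F →+* ℂ_[p])
    (h : t.comp (algebraMap K (AlgebraicClosure K)) = τ.comp (algebraMap K F)) :
    ∃ g : AlgebraicClosure K ≃ₐ[K] AlgebraicClosure K, ∀ y : F,
      τ y = t (algebraMap F (AlgebraicClosure K) (AlgEquiv.restrictNormalHom F g y)) := by
  obtain ⟨τ', hτ'⟩ := exists_extF F τ
  have h1 : t.comp (algebraMap K (AlgebraicClosure K)) =
      τ'.comp (algebraMap K (AlgebraicClosure K)) := by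
    rw [h, ← hτ']
    rfl
  obtain ⟨g, hg⟩ := exists_gal t τ' h1
  refine ⟨g, fun y => ?_⟩
  have h2 : τ y = τ' (algebraMap F (AlgebraicClosure K) y) := by
    rw [← hτ']
    rfl
  rw [h2, hg]
  congr 1
  exact (AlgEquiv.restrictNormal_commutes g F y).symm

end

theorem m_fun : M_FUN := by
  intro p _ K _ _ Lg F _ _ χ
  have hfg : Module.Finite ℤ (Additive (𝓞 F)ˣ) := inferInstance
  have hfin : FiniteDimensional ℂ_[p] (ℂ_[p] ⊗[ℤ] Additive (𝓞 F)ˣ) := inferInstance
  have hV : FiniteDimensional ℂ_[p] (chiPart F χ) := inferInstance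
  refine ⟨hV, ?_⟩
  choose t ht using fun σ : K →+* ℂ_[p] => exists_ext σ
  refine ⟨fun σ => (extHom (logUnits Lg ((t σ).comp (algebraMap F (AlgebraicClosure K))))).comp
    (chiPart F χ).subtype, ?_⟩
  intro T
  set l : (K →+* ℂ_[p]) → Dual ℂ_[p] (chiPart F χ) := fun σ =>
    (extHom (logUnits Lg ((t σ).comp (algebraMap F (AlgebraicClosure K))))).comp
      (chiPart F χ).subtype with hl
  have hco : (logKer Lg F T).comap (chiPart F χ).subtype =
      (Submodule.span ℂ_[p] (l '' T)).dualCoannihilator := by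
    ext v
    rw [Submodule.mem_comap, Submodule.mem_dualCoannihilator]
    constructor
    · intro hv φ hφ
      have hle : Submodule.span ℂ_[p] (l '' T) ≤
          LinearMap.ker (Dual.eval ℂ_[p] (chiPart F χ) v) := by
        rw [Submodule.span_le]
        rintro _ ⟨σ, hσ, rfl⟩
        rw [SetLike.mem_coe, LinearMap.mem_ker]
        have h1 : (t σ).comp (algebraMap F (AlgebraicClosure K)) ∈
            (above T : Set (F →+* ℂ_[p])) := by
          change ((t σ).comp (algebraMap F (AlgebraicClosure K))).comp (algebraMap K F) ∈ T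
          have h2 : ((t σ).comp (algebraMap F (AlgebraicClosure K))).comp (algebraMap K F) = σ := by
            conv_rhs => rw [← ht σ]
            rfl
          rw [h2]
          exact hσ
        exact hv _ h1
      exact hle hφ
    · intro hv τ hτ
      have hσ : τ.comp (algebraMap K F) ∈ T := hτ
      set σ := τ.comp (algebraMap K F) with hσd
      have h0 : extHom (logUnits Lg ((t σ).comp (algebraMap F (AlgebraicClosure K))))
          (v : ℂ_[p] ⊗[ℤ] Additive (𝓞 F)ˣ) = 0 :=
        hv (l σ) (Submodule.subset_span ⟨σ, hσ, rfl⟩)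
      obtain ⟨g, hg⟩ := exists_conj F (t σ) τ (ht σ)
      have h1 : logUnits Lg τ =
          (logUnits Lg ((t σ).comp (algebraMap F (AlgebraicClosure K)))).comp (ug F g) := by
        refine AddMonoidHom.ext fun u => ?_
        change Lg.toFun _ = Lg.toFun _
        congr 1
        apply Units.ext
        exact hg (el u)
      have h2 : extHom (logUnits Lg τ) (v : ℂ_[p] ⊗[ℤ] Additive (𝓞 F)ˣ) =
          extHom (logUnits Lg ((t σ).comp (algebraMap F (AlgebraicClosure K))))
            (extEnd (ug F g) (v : ℂ_[p] ⊗[ℤ] Additive (𝓞 F)ˣ)) := by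
        rw [h1, bc_extEnd, extHom_bc]
      have h3 := v.2 g
      change extHom (logUnits Lg τ) (v : ℂ_[p] ⊗[ℤ] Additive (𝓞 F)ˣ) = 0
      rw [h2, h3, map_smul, h0, smul_zero]
  have hk : kd Lg F χ T =
      finrank ℂ_[p] ((Submodule.span ℂ_[p] (l '' T)).dualCoannihilator) := by
    rw [← hco, ← Submodule.finrank_map_subtype_eq, Submodule.map_comap_subtype]
    rfl
  rw [hk, add_comm]
  exact Subspace.finrank_add_finrank_dualCoannihilator_eq _

end Pool.Agent.Helper80.SD
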